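import Pool.Agent.Q231.LP.PumpInf

namespace Q231.LS

open List Classical

variable {V ι : Type}

/-- symbols annotated with a number at most `m` -/
abbrev AV (V : Type) (m : ℕ) := V × Fin (m + 1)

/-- sum of the annotations -/
def sm {m : ℕ} (u : List (AV V m)) : ℕ := (u.map (fun s => (s.2 : ℕ))).sum

theorem sm_append {m : ℕ} (u v : List (AV V m)) : sm (u ++ v) = sm u + sm v := by
  simp [sm]

theorem sm_cons {m : ℕ} (s : AV V m) (v : List (AV V m)) : sm (s :: v) = s.2 + sm v := by
  simp [sm]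

theorem sm_nil {m : ℕ} : sm ([] : List (AV V m)) = 0 := rfl

/-- right-hand sides of the annotated tables, as a set -/
def aset (tb : ι → V → Finset (List V)) (r m : ℕ) (h : ι) (X : AV V m) :
    Set (List (AV V m)) :=
  {l | l.length ≤ r ∧ l.map Prod.fst ∈ tb h X.1 ∧ sm l = X.2}

theorem aset_finite [Finite V] (tb : ι → V → Finset (List V)) (r m : ℕ) (h : ι) (X : AV V m) :
    (aset tb r m h X).Finite :=
  (List.finite_length_le (AV V m) r).subset fun _ hl => hl.1

/-- annotated tables -/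
noncomputable def atb [Finite V] (tb : ι → V → Finset (List V)) (r m : ℕ) (h : ι) (X : AV V m) :
    Finset (List (AV V m)) :=
  (aset_finite tb r m h X).toFinset

theorem mem_atb [Finite V] {tb : ι → V → Finset (List V)} {r m : ℕ} {h : ι} {X : AV V m}
    {l : List (AV V m)} :
    l ∈ atb tb r m h X ↔ l.length ≤ r ∧ l.map Prod.fst ∈ tb h X.1 ∧ sm l = X.2 := by
  unfold atb
  rw [Set.Finite.mem_toFinset]
  exact Iff.rfl

theorem step_down [Finite V] {tb : ι → V → Finset (List V)} {r m : ℕ} {h : ι}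
    {u v : List (AV V m)} (hs : StepT (atb tb r m) h u v) :
    StepT tb h (u.map Prod.fst) (v.map Prod.fst) ∧ sm u = sm v := by
  induction u generalizing v with
  | nil => rw [stepT_nil.1 hs]; exact ⟨stepT_nil.2 rfl, rfl⟩
  | cons X u ih =>
    rw [show X :: u = [X] ++ u from rfl] at hs
    obtain ⟨v1, v2, rfl, h1, h2⟩ := stepT_append.1 hs
    obtain ⟨i1, i2⟩ := ih h2
    obtain ⟨-, g1, g2⟩ := mem_atb.1 (stepT_single.1 h1)
    refine ⟨?_, ?_⟩
    · rw [List.map_append, show (X :: u).map Prod.fst = [X.1] ++ u.map Prod.fst from rfl]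
      exact stepT_append.2 ⟨_, _, rfl, stepT_single.2 g1, i1⟩
    · rw [sm_append, sm_cons, i2, g2]

theorem der_down [Finite V] {tb : ι → V → Finset (List V)} {r m : ℕ} {τ : List ι} :
    ∀ {u v : List (AV V m)}, Der (atb tb r m) τ u v →
    Der tb τ (u.map Prod.fst) (v.map Prod.fst) ∧ sm u = sm v := by
  induction τ with
  | nil => intro u v h; simp only [Der] at h; subst h; exact ⟨rfl, rfl⟩
  | cons h τ ih =>
    rintro u v ⟨w, h1, h2⟩
    obtain ⟨a1, a2⟩ := step_down h1
    obtain ⟨b1, b2⟩ := ih h2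
    exact ⟨⟨_, a1, b1⟩, a2.trans b2⟩

theorem step_up [Finite V] {tb : ι → V → Finset (List V)} {r m : ℕ} {h : ι}
    (hlen : ∀ h X, ∀ y ∈ tb h X, y.length ≤ r)
    {u : List V} : ∀ {v' : List (AV V m)}, StepT tb h u (v'.map Prod.fst) → sm v' ≤ m →
    ∃ u' : List (AV V m), u'.map Prod.fst = u ∧ StepT (atb tb r m) h u' v' := by
  induction u with
  | nil =>
    intro v' hs _
    have : v' = [] := by
      have := stepT_nil.1 hs
      exact List.map_eq_nil_iff.1 this
    subst this
    exact ⟨[], rfl, stepT_nil.2 rfl⟩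
  | cons X u ih =>
    intro v' hs hm
    rw [show X :: u = [X] ++ u from rfl] at hs
    obtain ⟨v1, v2, he, h1, h2⟩ := stepT_append.1 hs
    obtain ⟨w1, w2, rfl, rfl, rfl⟩ := List.map_eq_append_iff.1 he
    rw [sm_append] at hm
    obtain ⟨u', g1, g2⟩ := ih h2 (by omega)
    have hy := stepT_single.1 h1
    refine ⟨(X, ⟨sm w1, by omega⟩) :: u', by simp [g1], ?_⟩
    rw [show (X, (⟨sm w1, by omega⟩ : Fin (m + 1))) :: u' = [(X, ⟨sm w1, by omega⟩)] ++ u' from rfl]
    refine stepT_append.2 ⟨_, _, rfl, stepT_single.2 (mem_atb.2 ⟨?_, hy, rfl⟩), g2⟩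
    have := hlen h X _ hy
    simpa using this

theorem der_up [Finite V] {tb : ι → V → Finset (List V)} {r m : ℕ} 
    (hlen : ∀ h X, ∀ y ∈ tb h X, y.length ≤ r) {τ : List ι} :
    ∀ {u : List V} {v' : List (AV V m)}, Der tb τ u (v'.map Prod.fst) → sm v' ≤ m →
    ∃ u' : List (AV V m), u'.map Prod.fst = u ∧ Der (atb tb r m) τ u' v' := by
  induction τ with
  | nil => intro u v' h _; simp only [Der] at h; exact ⟨v', h.symm, rfl⟩
  | cons h τ ih =>
    rintro u v' ⟨w, h1, h2⟩ hm
    obtain ⟨w', rfl, g2⟩ := ih h2 hm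
    have hw : sm w' ≤ m := by rw [(der_down g2).2]; exact hm
    obtain ⟨u', e1, e2⟩ := step_up hlen h1 hw
    exact ⟨u', e1, _, e2, g2⟩

/-- annotation of a terminal word -/
noncomputable def ann (mk : V → Prop) (m : ℕ) (s : V) : AV V m :=
  (s, if mk s then (if hm : 1 < m + 1 then ⟨1, hm⟩ else 0) else 0)

theorem sm_ann (mk : V → Prop) (m : ℕ) (hm : 1 ≤ m) (x : List V) :
    sm (x.map (ann mk m)) = cnt mk x := by
  induction x with
  | nil => rfl
  | cons s x ih =>
    rw [List.map_cons, sm_cons, ih]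
    unfold cnt
    rw [List.countP_cons]
    unfold ann
    by_cases h : mk s
    · have h1 : 1 < m + 1 := by omega
      simp only [h, if_true, h1, dif_pos, decide_true]
      omega
    · simp [h]

/-- Pumping with a fixed number of marked letters. -/
theorem pump_upper [Finite V] (tb : ι → V → Finset (List V)) (tm mk : V → Prop)
    (r : ℕ) (hr : 2 ≤ r) (hlen : ∀ h X, ∀ y ∈ tb h X, y.length ≤ r)
    (w0 : List V) (τ : List ι) (x : List V) (hd : Der tb τ w0 x) (ht : ∀ s ∈ x, tm s)
    (hpos : 1 ≤ cnt mk x)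
    (hc : w0.length * r ^ lab (Nat.card V * (cnt mk x + 1)) < x.length) :
    ∀ k, ∃ τ' x', Der tb τ' w0 x' ∧ (∀ s ∈ x', tm s) ∧ cnt mk x' = cnt mk x ∧ k < x'.length := by
  set m := cnt mk x with hm
  have hmap : (x.map (ann mk m)).map Prod.fst = x := by
    rw [List.map_map]
    conv_rhs => rw [← List.map_id x]
    rfl
  have hsm : sm (x.map (ann mk m)) = m := by rw [sm_ann mk m hpos x]
  obtain ⟨w0', e1, e2⟩ := der_up (m := m) hlen (v' := x.map (ann mk m)) (by rw [hmap]; exact hd)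
    (by rw [hsm])
  have hcard : Nat.card (AV V m) = Nat.card V * (m + 1) := by
    rw [Nat.card_prod, Nat.card_fin]
  have hlen' : ∀ h X, ∀ y ∈ atb tb r m h X, y.length ≤ r := fun h X y hy => (mem_atb.1 hy).1
  intro k
  have hl0 : w0'.length = w0.length := by rw [← e1, List.length_map]
  obtain ⟨τ', x', d1, d2, d3⟩ := pump_inf (tb := atb tb r m)
    (tm := fun s : AV V m => tm s.1 ∧ s = ann mk m s.1) (mk := fun _ => True) r hr hlen' w0' τ
    (x.map (ann mk m)) e2 (by
      intro s hs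
      obtain ⟨t, h1, rfl⟩ := List.mem_map.1 hs
      exact ⟨ht t h1, rfl⟩) (by
      rw [hcard, hl0]
      refine hc.trans_le (le_of_eq ?_)
      simp [cnt]) k
  obtain ⟨f1, f2⟩ := der_down d1
  have hx' : x' = (x'.map Prod.fst).map (ann mk m) := by
    rw [List.map_map]
    conv_lhs => rw [← List.map_id x']
    exact List.map_congr_left fun s hs => (d2 s hs).2
  refine ⟨τ', x'.map Prod.fst, by rw [← e1]; exact f1, ?_, ?_, ?_⟩
  · intro s hs
    obtain ⟨t, h1, rfl⟩ := List.mem_map.1 hs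
    exact (d2 t h1).1
  · rw [← sm_ann mk m hpos, ← hx', ← f2, (der_down e2).2, hsm]
  · rw [List.length_map]
    exact lt_of_lt_of_le d3 (cnt_le _)

end Q231.LS
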