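import Pool.Agent.Q231.LS.Defs

/-!
Left permitting E0L grammars.
-/

namespace Q231.LS

/-- A left permitting E0L grammar with terminal alphabet `A`; a rule `(X, y, U)` is
`X → y` with the left permitting context `U` (a set of nonterminals). -/
structure LPE0L (A : Type) where
  /-- nonterminal alphabet -/
  N : Type
  finN : Finite N
  /-- the rules -/
  rules : Finset ((N ⊕ A) × List (N ⊕ A) × Finset N)
  /-- the axiom -/
  ax : List (N ⊕ A)
  ax_ne : ax ≠ []

namespace LPE0L

variable {A : Type} (G : LPE0L A)

/-- One derivation step: all symbols are rewritten in parallel, the `i`-th symbol by a rule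
all of whose permitting symbols occur to the left of it. -/
def Step (u v : List (G.N ⊕ A)) : Prop :=
  ∃ ys : List (List (G.N ⊕ A)), ys.length = u.length ∧ v = ys.flatten ∧
    ∀ (i : ℕ) (hi : i < u.length) (hi' : i < ys.length),
      ∃ U : Finset G.N, (u[i], ys[i], U) ∈ G.rules ∧ ∀ B ∈ U, Sum.inl B ∈ u.take i

/-- The generated language. -/
def Lang : Set (List A) :=
  {x | Relation.ReflTransGen G.Step G.ax (x.map Sum.inr)}

/-- No rule is erasing (LP-EP0L grammars). -/
def Propagating : Prop := ∀ r ∈ G.rules, r.2.1 ≠ []

end LPE0L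

end Q231.LS
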