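import Pool.Agent.Q231.LP.Rec
import Pool.Agent.Q231.LP.Bridge
import Pool.Agent.Q231.LS.Lang

namespace Q231.LP

open List Q231.LS

/-- nonterminals: three control symbols `A`, `B`, `F`, markers `M`, counters `Y`, `Z`, `D`,
right end markers `R`, `Q` -/
inductive NP
  | A
  | B
  | F
  | M
  | Y
  | Z
  | D
  | R
  | Q
deriving DecidableEq

open NP

instance : Finite NP :=
  Finite.of_surjective (fun i : Fin 9 => (match i with
    | 0 => NP.A | 1 => NP.B | 2 => NP.F | 3 => NP.M | 4 => NP.Y | 5 => NP.Z | 6 => NP.D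
    | 7 => NP.R | 8 => NP.Q)) (by
    intro x
    cases x
    · exact ⟨0, rfl⟩
    · exact ⟨1, rfl⟩
    · exact ⟨2, rfl⟩
    · exact ⟨3, rfl⟩
    · exact ⟨4, rfl⟩
    · exact ⟨5, rfl⟩
    · exact ⟨6, rfl⟩
    · exact ⟨7, rfl⟩
    · exact ⟨8, rfl⟩)

abbrev W := NP ⊕ AB

abbrev n' (x : NP) : W := Sum.inl x

/-- the rules of the grammar -/
def rulesP : List (W × List W × Finset NP) :=
  [(n' A, [n' A], ∅), (n' A, [n' B], ∅), (n' B, [n' A, n' M], ∅), (n' B, [n' F, n' M], ∅),
    (n' F, [Sum.inr AB.a], ∅),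
    (n' M, [n' M], {A}), (n' Y, [n' Y], {A}), (n' Y, [n' Z], {A}), (n' Z, [n' D, n' D], {A}),
    (n' D, [n' D, n' D], {A}), (n' R, [n' R], {A, Z}), (n' Q, [n' R], {A}),
    (n' M, [n' M], {B}), (n' Y, [n' Y], {B}), (n' Z, [n' Y], {B}), (n' D, [n' Y], {B}),
    (n' R, [n' Q], {B}),
    (n' M, [Sum.inr AB.a], {F}), (n' Y, [Sum.inr AB.b], {F}), (n' Q, [Sum.inr AB.b], {F})]

/-- The propagating left permitting grammar. -/
abbrev gramP : LPE0L AB where
  N := NP
  finN := inferInstance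
  rules := rulesP.toFinset
  ax := [n' A, n' Y, n' Y, n' Q]
  ax_ne := by simp

/-- the rules as a relation -/
def RR (X : W) (y : List W) (U : Finset NP) : Prop := (X, y, U) ∈ rulesP

theorem step_iff (u v : List W) : gramP.Step u v ↔ PS RR n' [] u v := by
  rw [step_iff_ps]
  have : (fun (X : W) y (U : Finset NP) => (X, y, U) ∈ gramP.rules) = RR := by
    funext X y U
    apply propext
    show (X, y, U) ∈ rulesP.toFinset ↔ _
    exact List.mem_toFinset
  rw [this]

theorem propagating : gramP.Propagating := by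
  rintro ⟨X, y, U⟩ hr
  have h : (X, y, U) ∈ rulesP := by
    have : (X, y, U) ∈ rulesP.toFinset := hr
    exact List.mem_toFinset.1 this
  have hall : ∀ r ∈ rulesP, r.2.1.isEmpty = false := by decide
  intro h0
  have := hall _ h
  rw [show ((X, y, U) : W × List W × Finset NP).2.1 = y from rfl] at this
  rw [show ((X, y, U) : W × List W × Finset NP).2.1 = y from rfl] at h0
  rw [h0] at this
  simp at this

/-- the control symbol to the left is `X` -/
def Ctl (left : List W) (X : NP) : Prop :=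
  (n' A ∈ left ↔ X = A) ∧ (n' B ∈ left ↔ X = B) ∧ (n' F ∈ left ↔ X = F)

theorem ctl_single (X : NP) : Ctl [n' X] X := by
  refine ⟨?_, ?_, ?_⟩ <;> simp [eq_comm]

theorem ctl_append {left : List W} {X : NP} (h : Ctl left X) {w : List W}
    (hA : n' A ∉ w) (hB : n' B ∉ w) (hF : n' F ∉ w) : Ctl (left ++ w) X := by
  obtain ⟨h1, h2, h3⟩ := h
  refine ⟨?_, ?_, ?_⟩
  · rw [List.mem_append, h1]; tauto
  · rw [List.mem_append, h2]; tauto
  · rw [List.mem_append, h3]; tauto

theorem r_A {left y : List W} (h : ∃ U, RR (n' A) y U ∧ ∀ Z ∈ U, n' Z ∈ left) :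
    y = [n' A] ∨ y = [n' B] := by
  obtain ⟨U, h1, -⟩ := h
  simp [RR, rulesP] at h1
  tauto

theorem r_B {left y : List W} (h : ∃ U, RR (n' B) y U ∧ ∀ Z ∈ U, n' Z ∈ left) :
    y = [n' A, n' M] ∨ y = [n' F, n' M] := by
  obtain ⟨U, h1, -⟩ := h
  simp [RR, rulesP] at h1
  tauto

theorem r_F {left y : List W} (h : ∃ U, RR (n' F) y U ∧ ∀ Z ∈ U, n' Z ∈ left) :
    y = [Sum.inr AB.a] := by
  obtain ⟨U, h1, -⟩ := h
  simp [RR, rulesP] at h1
  tauto

theorem r_t {left y : List W} {c : AB} (h : ∃ U, RR (Sum.inr c) y U ∧ ∀ Z ∈ U, n' Z ∈ left) :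
    False := by
  obtain ⟨U, h1, -⟩ := h
  simp [RR, rulesP] at h1

theorem r_M {left y : List W} {X : NP} (hc : Ctl left X)
    (h : ∃ U, RR (n' M) y U ∧ ∀ Z ∈ U, n' Z ∈ left) :
    (X = A → y = [n' M]) ∧ (X = B → y = [n' M]) ∧ (X = F → y = [Sum.inr AB.a]) := by
  obtain ⟨U, h1, h2⟩ := h
  obtain ⟨c1, c2, c3⟩ := hc
  simp [RR, rulesP] at h1
  rcases h1 with ⟨rfl, rfl⟩ | ⟨rfl, rfl⟩ | ⟨rfl, rfl⟩ <;>
    simp only [Finset.mem_singleton, forall_eq, c1, c2, c3] at h2 <;> subst h2 <;> simp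

theorem r_Y {left y : List W} {X : NP} (hc : Ctl left X)
    (h : ∃ U, RR (n' Y) y U ∧ ∀ Z ∈ U, n' Z ∈ left) :
    (X = A → y = [n' Y] ∨ y = [n' Z]) ∧ (X = B → y = [n' Y]) ∧ (X = F → y = [Sum.inr AB.b]) := by
  obtain ⟨U, h1, h2⟩ := h
  obtain ⟨c1, c2, c3⟩ := hc
  simp [RR, rulesP] at h1
  rcases h1 with ⟨rfl, rfl⟩ | ⟨rfl, rfl⟩ | ⟨rfl, rfl⟩ | ⟨rfl, rfl⟩ <;>
    simp only [Finset.mem_singleton, forall_eq, c1, c2, c3] at h2 <;> subst h2 <;> simp

theorem r_Z {left y : List W} {X : NP} (hc : Ctl left X)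
    (h : ∃ U, RR (n' Z) y U ∧ ∀ Z ∈ U, n' Z ∈ left) :
    (X = A → y = [n' D, n' D]) ∧ (X = B → y = [n' Y]) := by
  obtain ⟨U, h1, h2⟩ := h
  obtain ⟨c1, c2, c3⟩ := hc
  simp [RR, rulesP] at h1
  rcases h1 with ⟨rfl, rfl⟩ | ⟨rfl, rfl⟩ <;>
    simp only [Finset.mem_singleton, forall_eq, c1, c2, c3] at h2 <;> subst h2 <;> simp

theorem r_D {left y : List W} {X : NP} (hc : Ctl left X)
    (h : ∃ U, RR (n' D) y U ∧ ∀ Z ∈ U, n' Z ∈ left) :
    (X = A → y = [n' D, n' D]) ∧ (X = B → y = [n' Y]) := by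
  obtain ⟨U, h1, h2⟩ := h
  obtain ⟨c1, c2, c3⟩ := hc
  simp [RR, rulesP] at h1
  rcases h1 with ⟨rfl, rfl⟩ | ⟨rfl, rfl⟩ <;>
    simp only [Finset.mem_singleton, forall_eq, c1, c2, c3] at h2 <;> subst h2 <;> simp

theorem r_R {left y : List W} {X : NP} (hc : Ctl left X)
    (h : ∃ U, RR (n' R) y U ∧ ∀ Z ∈ U, n' Z ∈ left) :
    (X = A → y = [n' R] ∧ n' Z ∈ left) ∧ (X = B → y = [n' Q]) := by
  obtain ⟨U, h1, h2⟩ := h
  obtain ⟨c1, c2, c3⟩ := hc
  simp [RR, rulesP] at h1
  rcases h1 with ⟨rfl, rfl⟩ | ⟨rfl, rfl⟩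
  · simp only [Finset.mem_insert, Finset.mem_singleton, forall_eq_or_imp, forall_eq, c1] at h2
    obtain ⟨rfl, h3⟩ := h2
    simp [h3]
  · simp only [Finset.mem_singleton, forall_eq, c1, c2, c3] at h2
    subst h2
    simp

theorem r_Q {left y : List W} {X : NP} (hc : Ctl left X)
    (h : ∃ U, RR (n' Q) y U ∧ ∀ Z ∈ U, n' Z ∈ left) :
    (X = A → y = [n' R]) ∧ (X ≠ B) ∧ (X = F → y = [Sum.inr AB.b]) := by
  obtain ⟨U, h1, h2⟩ := h
  obtain ⟨c1, c2, c3⟩ := hc
  simp [RR, rulesP] at h1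
  rcases h1 with ⟨rfl, rfl⟩ | ⟨rfl, rfl⟩ <;>
    simp only [Finset.mem_singleton, forall_eq, c1, c2, c3] at h2 <;> subst h2 <;> simp

/-- number of occurrences of a nonterminal -/
def cp (X : NP) : List W → ℕ
  | [] => 0
  | s :: w => cp X w + (if s = n' X then 1 else 0)

theorem cp_pos {X : NP} {w : List W} (h : n' X ∈ w) : 1 ≤ cp X w := by
  induction w with
  | nil => simp at h
  | cons s w ih =>
    rcases List.mem_cons.1 h with h | h
    · subst h; simp [cp]
    · have := ih h; simp only [cp]; omega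

/-- words over `Y`, `Z`, `D` -/
def YZD (w : List W) : Prop := ∀ s ∈ w, s = n' Y ∨ s = n' Z ∨ s = n' D

theorem yzd_append {w w' : List W} (h : YZD w) (h' : YZD w') : YZD (w ++ w') := by
  intro s hs
  rcases List.mem_append.1 hs with hs | hs
  · exact h s hs
  · exact h' s hs

theorem ctl_yzd {left : List W} {X : NP} (h : Ctl left X) {w : List W} (hw : YZD w) :
    Ctl (left ++ w) X := by
  refine ctl_append h ?_ ?_ ?_ <;> intro hm <;> rcases hw _ hm with h | h | h <;> simp [n'] at h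

theorem ctl_M {left : List W} {X : NP} (h : Ctl left X) (j : ℕ) :
    Ctl (left ++ replicate j (n' M)) X := by
  refine ctl_append h ?_ ?_ ?_ <;> intro hm <;> have := List.eq_of_mem_replicate hm <;>
    simp [n'] at this

theorem flat_rep (j : ℕ) (s : W) : (replicate j [s]).flatten = replicate j s := by
  induction j with
  | zero => rfl
  | succ j ih => rw [List.replicate_succ, List.flatten_cons, ih, List.replicate_succ]; rfl

theorem ps_M {X : NP} {y : List W} (hrule : ∀ (left z : List W), Ctl left X →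
      (∃ U, RR (n' M) z U ∧ ∀ Z ∈ U, n' Z ∈ left) → z = y) (j : ℕ) :
    ∀ {left v : List W}, Ctl left X → PS RR n' left (replicate j (n' M)) v →
      v = (replicate j y).flatten := by
  induction j with
  | zero => intro left v _ h; exact h
  | succ j ih =>
    intro left v hX h
    rw [List.replicate_succ] at h
    obtain ⟨z, v', rfl, h1, h2⟩ := h
    rw [hrule left z hX h1, ih (ctl_M hX 1) h2]
    simp [List.replicate_succ]

/-- phase `A` -/
theorem ps_A {w : List W} : ∀ {left v : List W}, YZD w → Ctl left A → PS RR n' left w v →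
    YZD v ∧ v.length ≤ 2 * w.length ∧ cp Y v + cp Z v = cp Y w := by
  induction w with
  | nil => intro left v _ _ h; rw [show v = [] from h]; simp [YZD, cp]
  | cons s w ih =>
    intro left v hw hA h
    obtain ⟨y, v', rfl, h1, h2⟩ := h
    have hs : YZD [s] := fun t ht => hw t (by simp at ht; simp [ht])
    obtain ⟨i1, i2, i3⟩ := ih (fun t ht => hw t (by simp [ht])) (ctl_yzd hA hs) h2
    rcases hw s (by simp) with rfl | rfl | rfl
    · rcases (r_Y hA h1).1 rfl with rfl | rfl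
      · refine ⟨yzd_append (fun t ht => by simp at ht; simp [ht]) i1, ?_, ?_⟩
        · simp; omega
        · simp [cp]; omega
      · refine ⟨yzd_append (fun t ht => by simp at ht; simp [ht]) i1, ?_, ?_⟩
        · simp; omega
        · simp [cp]; omega
    · rw [(r_Z hA h1).1 rfl]
      refine ⟨yzd_append (fun t ht => by simp at ht; simp [ht]) i1, ?_, ?_⟩
      · simp; omega
      · simp [cp]; omega
    · rw [(r_D hA h1).1 rfl]
      refine ⟨yzd_append (fun t ht => by simp at ht; simp [ht]) i1, ?_, ?_⟩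
      · simp; omega
      · simp [cp]; omega

/-- phase `B` -/
theorem ps_B {w : List W} : ∀ {left v : List W}, YZD w → Ctl left B → PS RR n' left w v →
    v = replicate w.length (n' Y) := by
  induction w with
  | nil => intro left v _ _ h; exact h
  | cons s w ih =>
    intro left v hw hB h
    obtain ⟨y, v', rfl, h1, h2⟩ := h
    have hs : YZD [s] := fun t ht => hw t (by simp at ht; simp [ht])
    have i1 := ih (fun t ht => hw t (by simp [ht])) (ctl_yzd hB hs) h2
    have hy : y = [n' Y] := by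
      rcases hw s (by simp) with rfl | rfl | rfl
      · exact (r_Y hB h1).2.1 rfl
      · exact (r_Z hB h1).2 rfl
      · exact (r_D hB h1).2 rfl
    rw [hy, i1]
    rfl

/-- phase `F` -/
theorem ps_F (p : ℕ) : ∀ {left v : List W}, Ctl left F →
    PS RR n' left (replicate p (n' Y)) v → v = replicate p (Sum.inr AB.b) := by
  induction p with
  | zero => intro left v _ h; exact h
  | succ p ih =>
    intro left v hF h
    rw [List.replicate_succ] at h
    obtain ⟨y, v', rfl, h1, h2⟩ := h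
    have hs : YZD [n' Y] := fun t ht => by simp at ht; simp [ht]
    rw [(r_Y hF h1).2.2 rfl, ih (ctl_yzd hF hs) h2]
    simp [List.replicate_succ]

/-- bound on the number of counters -/
def U : ℕ → ℕ
  | 0 => 2
  | j + 1 => U j * 2 ^ U j

/-- invariant -/
def Inv (x : List W) : Prop :=
  (∃ (X : NP) (j : ℕ) (w : List W), (X = A ∨ X = B) ∧
    x = n' X :: (replicate j (n' M) ++ (w ++ [n' R])) ∧
    YZD w ∧ w.length * 2 ^ (cp Y w + cp Z w) ≤ U (j + 1)) ∨
  (∃ (X : NP) (j p : ℕ), (X = A ∨ X = F) ∧ p ≤ U j ∧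
    x = n' X :: (replicate j (n' M) ++ (replicate p (n' Y) ++ [n' Q]))) ∨
  (∃ j p : ℕ, p ≤ U j ∧ x = Sum.inr AB.a :: (replicate j (Sum.inr AB.a) ++
    (replicate p (Sum.inr AB.b) ++ [Sum.inr AB.b])))

theorem cp_le (w : List W) : cp Y w + cp Z w ≤ w.length := by
  induction w with
  | nil => simp [cp]
  | cons s w ih =>
    simp only [cp, List.length_cons]
    by_cases h1 : s = n' Y
    · subst h1; simp; omega
    · by_cases h2 : s = n' Z
      · subst h2; simp; omega
      · simp [h1, h2]; omega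

theorem yzd_rep (p : ℕ) : YZD (replicate p (n' Y)) := by
  intro s hs
  left
  exact List.eq_of_mem_replicate hs

theorem cp_rep (p : ℕ) : cp Y (replicate p (n' Y)) = p := by
  induction p with
  | zero => rfl
  | succ p ih => rw [List.replicate_succ]; simp [cp, ih]

theorem ps_rep_len {p : ℕ} : ∀ {left v : List W}, Ctl left A →
    PS RR n' left (replicate p (n' Y)) v → v.length = p := by
  induction p with
  | zero => intro left v _ h; rw [show v = [] from h]; rfl
  | succ p ih =>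
    intro left v hA h
    rw [List.replicate_succ] at h
    obtain ⟨y, v', rfl, h1, h2⟩ := h
    have hs : YZD [n' Y] := fun t ht => by simp at ht; simp [ht]
    have := ih (ctl_yzd hA hs) h2
    rcases (r_Y hA h1).1 rfl with rfl | rfl <;> simp [this]

theorem inv_step {x y : List W} (hx : Inv x) (h : gramP.Step x y) : Inv y := by
  rw [step_iff] at h
  rcases hx with ⟨X, j, w, hX, rfl, hw, hI⟩ | ⟨X, j, p, hX, hp, rfl⟩ | ⟨j, p, hp, rfl⟩
  · obtain ⟨z, v', rfl, h1, h2⟩ := h
    obtain ⟨v1, v2', rfl, h3, h4'⟩ := ps_append.1 h2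
    obtain ⟨v2, v3, rfl, h4, h5⟩ := ps_append.1 h4'
    obtain ⟨z5, v5, rfl, h6, h7⟩ := h5
    have hv5 : v5 = [] := h7
    subst hv5
    have hc0 : Ctl ([] ++ [n' X]) X := ctl_single X
    rcases hX with rfl | rfl
    · have hv1 : v1 = replicate j (n' M) := by
        rw [ps_M (X := A) (y := [n' M]) (fun l z hl hr => (r_M hl hr).1 rfl) j hc0 h3, flat_rep]
      obtain ⟨g1, g2, g3⟩ := ps_A hw (ctl_M hc0 j) h4
      obtain ⟨g4, g5⟩ := (r_R (ctl_yzd (ctl_M hc0 j) hw) h6).1 rfl
      have hZ : n' Z ∈ w := by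
        simp only [List.nil_append, List.mem_append, List.mem_cons, List.mem_singleton,
          List.mem_replicate] at g5
        rcases g5 with (g5 | g5) | g5
        · simp [n'] at g5
        · simp [n'] at g5
        · exact g5
      have hZ1 := cp_pos hZ
      have hI' : v2.length * 2 ^ (cp Y v2 + cp Z v2) ≤ U (j + 1) := by
        rw [g3]
        calc v2.length * 2 ^ cp Y w ≤ (2 * w.length) * 2 ^ cp Y w := Nat.mul_le_mul_right _ g2
          _ = w.length * 2 ^ (cp Y w + 1) := by ring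
          _ ≤ w.length * 2 ^ (cp Y w + cp Z w) :=
            Nat.mul_le_mul_left _ (Nat.pow_le_pow_right (by norm_num) (by omega))
          _ ≤ _ := hI
      rcases r_A h1 with rfl | rfl
      · exact Or.inl ⟨A, j, v2, Or.inl rfl, by rw [hv1, g4]; simp, g1, hI'⟩
      · exact Or.inl ⟨B, j, v2, Or.inr rfl, by rw [hv1, g4]; simp, g1, hI'⟩
    · have hv1 : v1 = replicate j (n' M) := by
        rw [ps_M (X := B) (y := [n' M]) (fun l z hl hr => (r_M hl hr).2.1 rfl) j hc0 h3, flat_rep]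
      have g1 := ps_B hw (ctl_M hc0 j) h4
      have g4 := (r_R (ctl_yzd (ctl_M hc0 j) hw) h6).2 rfl
      have hle : w.length ≤ U (j + 1) := by
        refine le_trans ?_ hI
        exact Nat.le_mul_of_pos_right _ (by positivity)
      rcases r_B h1 with rfl | rfl
      · refine Or.inr (Or.inl ⟨A, j + 1, w.length, Or.inl rfl, hle, ?_⟩)
        rw [hv1, g1, g4, List.replicate_succ]; simp
      · refine Or.inr (Or.inl ⟨F, j + 1, w.length, Or.inr rfl, hle, ?_⟩)
        rw [hv1, g1, g4, List.replicate_succ]; simp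
  · obtain ⟨z, v', rfl, h1, h2⟩ := h
    obtain ⟨v1, v2', rfl, h3, h4'⟩ := ps_append.1 h2
    obtain ⟨v2, v3, rfl, h4, h5⟩ := ps_append.1 h4'
    obtain ⟨z5, v5, rfl, h6, h7⟩ := h5
    have hv5 : v5 = [] := h7
    subst hv5
    have hc0 : Ctl ([] ++ [n' X]) X := ctl_single X
    rcases hX with rfl | rfl
    · have hv1 : v1 = replicate j (n' M) := by
        rw [ps_M (X := A) (y := [n' M]) (fun l z hl hr => (r_M hl hr).1 rfl) j hc0 h3, flat_rep]
      obtain ⟨g1, g2, g3⟩ := ps_A (yzd_rep p) (ctl_M hc0 j) h4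
      have g6 := ps_rep_len (ctl_M hc0 j) h4
      have g4 := (r_Q (ctl_yzd (ctl_M hc0 j) (yzd_rep p)) h6).1 rfl
      have hI' : v2.length * 2 ^ (cp Y v2 + cp Z v2) ≤ U (j + 1) := by
        rw [g3, g6, cp_rep]
        exact Nat.mul_le_mul hp (Nat.pow_le_pow_right (by norm_num) hp)
      rcases r_A h1 with rfl | rfl
      · exact Or.inl ⟨A, j, v2, Or.inl rfl, by rw [hv1, g4]; simp, g1, hI'⟩
      · exact Or.inl ⟨B, j, v2, Or.inr rfl, by rw [hv1, g4]; simp, g1, hI'⟩
    · have hv1 : v1 = replicate j (Sum.inr AB.a) := by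
        rw [ps_M (X := F) (y := [Sum.inr AB.a]) (fun l z hl hr => (r_M hl hr).2.2 rfl) j hc0 h3,
          flat_rep]
      have g1 := ps_F p (ctl_M hc0 j) h4
      have g4 := (r_Q (ctl_yzd (ctl_M hc0 j) (yzd_rep p)) h6).2.2 rfl
      refine Or.inr (Or.inr ⟨j, p, hp, ?_⟩)
      rw [r_F h1, hv1, g1, g4]; simp
  · obtain ⟨z, v', rfl, h1, h2⟩ := h
    exact (r_t h1).elim

theorem inv_reach {y : List W} (h : Relation.ReflTransGen gramP.Step gramP.ax y) : Inv y := by
  induction h with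
  | refl =>
    exact Or.inr (Or.inl ⟨A, 0, 2, Or.inl rfl, le_rfl, rfl⟩)
  | tail _ h2 ih => exact inv_step ih h2

theorem lang_form {x : List AB} (hx : x ∈ gramP.Lang) :
    ∃ j p, p ≤ U j ∧ x = AB.a :: (replicate j AB.a ++ replicate (p + 1) AB.b) := by
  have h := inv_reach hx
  rcases h with ⟨X, j, w, hX, h, -⟩ | ⟨X, j, p, hX, hp, h⟩ | ⟨j, p, hp, h⟩
  · cases x with
    | nil => simp at h
    | cons c x => simp [n'] at h
  · cases x with
    | nil => simp at h
    | cons c x => simp [n'] at h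
  · refine ⟨j, p, hp, ?_⟩
    have h2 : List.map (Sum.inr : AB → W) x =
        List.map (Sum.inr : AB → W) (AB.a :: (replicate j AB.a ++ replicate (p + 1) AB.b)) := by
      rw [h]; simp [List.replicate_succ']
    exact List.map_injective_iff.2 Sum.inr_injective h2

end Q231.LP
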