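import Pool.Agent.Q231.LP.Rec

namespace Q231.LP

open List Q231.LS

section

variable {A : Type} [Finite A] (G : ET0L A)

/-- control symbols: `none` is idle, `some none` is the final one, `some (some h)` is table `h` -/
abbrev Ctr := Option (Option (Fin G.n))

/-- nonterminals: control symbols and copies of the letters of `G` -/
abbrev NN := Ctr G ⊕ (G.N ⊕ A)

abbrev WW := NN G ⊕ A

/-- control symbol -/
abbrev ct (c : Ctr G) : WW G := Sum.inl (Sum.inl c)

/-- copy of a letter -/
abbrev co (s : G.N ⊕ A) : WW G := Sum.inl (Sum.inr s)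

/-- the rules -/
def RS : Set (WW G × List (WW G) × Finset (NN G)) :=
  Set.range (fun p : Option (Fin G.n) × Ctr G =>
    (ct G (match p.1 with | none => none | some h => some (some h)), [ct G p.2], ∅)) ∪
  {(ct G (some none), [], ∅)} ∪
  Set.range (fun s : G.N ⊕ A => (co G s, [co G s], {Sum.inl none})) ∪
  Set.range (fun p : (Σ h : Fin G.n, Σ s : G.N ⊕ A, {z : List (G.N ⊕ A) // z ∈ G.table h s}) =>
    (co G p.2.1, p.2.2.1.map (co G), {Sum.inl (some (some p.1))})) ∪
  Set.range (fun t : A => (co G (Sum.inr t), [Sum.inr t], {Sum.inl (some none)}))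

theorem RS_finite : (RS G).Finite := by
  haveI := G.finN
  unfold RS
  refine ((((Set.finite_range _).union (Set.finite_singleton _)).union
    (Set.finite_range _)).union (Set.finite_range _)).union (Set.finite_range _)

/-- the left permitting grammar simulating `G` -/
noncomputable def lpg : LPE0L A where
  N := NN G
  finN := by
    haveI := G.finN
    infer_instance
  rules := (RS_finite G).toFinset
  ax := ct G none :: G.ax.map (co G)
  ax_ne := by simp

def RG (X : WW G) (y : List (WW G)) (U : Finset (NN G)) : Prop := (X, y, U) ∈ RS G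

theorem lstep_iff (u v : List (WW G)) : (lpg G).Step u v ↔ PS (RG G) Sum.inl [] u v := by
  have h := step_iff_ps (lpg G) u v
  rw [h]
  have : (fun (X : WW G) (y : List (WW G)) (U : Finset (NN G)) => (X, y, U) ∈ (lpg G).rules) =
      RG G := by
    funext X y U
    apply propext
    show (X, y, U) ∈ (RS_finite G).toFinset ↔ _
    exact Set.Finite.mem_toFinset _
  exact iff_of_eq (congrArg (fun R => PS R Sum.inl [] u v) this)

theorem rg_ct {c : Ctr G} {y : List (WW G)} {U : Finset (NN G)} (h : RG G (ct G c) y U) :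
    (c ≠ some none ∧ ∃ c', y = [ct G c']) ∨ (c = some none ∧ y = []) := by
  unfold RG RS at h
  simp only [Set.mem_union, Set.mem_range, Set.mem_singleton_iff, Prod.mk.injEq, ct, co,
    Sum.inl.injEq, reduceCtorEq, false_and, exists_false, or_false, and_false] at h
  rcases h with ⟨⟨p, c'⟩, h1, h2, -⟩ | ⟨h1, h2, -⟩
  · left
    refine ⟨?_, c', h2.symm⟩
    rw [← h1]
    cases p <;> simp
  · right
    exact ⟨h1, h2⟩

theorem rg_ct_mem {c c' : Ctr G} (h : c ≠ some none) : RG G (ct G c) [ct G c'] ∅ := by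
  unfold RG RS
  left; left; left; left
  rcases c with _ | _ | h'
  · exact ⟨(none, c'), rfl⟩
  · exact absurd rfl h
  · exact ⟨(some h', c'), rfl⟩

theorem rg_fin_mem : RG G (ct G (some none)) [] ∅ := by
  unfold RG RS
  left; left; left; right
  rfl

theorem rg_idle_mem (s : G.N ⊕ A) : RG G (co G s) [co G s] {Sum.inl none} := by
  unfold RG RS
  left; left; right
  exact ⟨s, rfl⟩

theorem rg_tab_mem (h : Fin G.n) (s : G.N ⊕ A) (z : List (G.N ⊕ A)) (hz : z ∈ G.table h s) :
    RG G (co G s) (z.map (co G)) {Sum.inl (some (some h))} := by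
  unfold RG RS
  left; right
  exact ⟨⟨h, s, z, hz⟩, rfl⟩

theorem rg_t_mem (t : A) : RG G (co G (Sum.inr t)) [Sum.inr t] {Sum.inl (some none)} := by
  unfold RG RS
  right
  exact ⟨t, rfl⟩

theorem rg_co {s : G.N ⊕ A} {y : List (WW G)} {U : Finset (NN G)} (h : RG G (co G s) y U) :
    (y = [co G s] ∧ U = {Sum.inl none}) ∨
    (∃ h z, z ∈ G.table h s ∧ y = z.map (co G) ∧ U = {Sum.inl (some (some h))}) ∨
    (∃ t, s = Sum.inr t ∧ y = [Sum.inr t] ∧ U = {Sum.inl (some none)}) := by
  unfold RG RS at h
  simp only [Set.mem_union, Set.mem_range, Set.mem_singleton_iff, Prod.mk.injEq, ct, co,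
    Sum.inl.injEq, Sum.inr.injEq, reduceCtorEq, false_and, exists_false, false_or] at h
  rcases h with (⟨s', h1, h2, h3⟩ | ⟨⟨h, s', z, hz⟩, h1, h2, h3⟩) | ⟨t, h1, h2, h3⟩
  · left
    subst h1
    exact ⟨h2.symm, h3.symm⟩
  · right; left
    simp only at h1 h2 h3
    subst h1
    exact ⟨h, z, hz, h2.symm, h3.symm⟩
  · right; right
    exact ⟨t, h1.symm, h2.symm, h3.symm⟩

theorem rg_t {t : A} {y : List (WW G)} {U : Finset (NN G)} (h : RG G (Sum.inr t) y U) : False := by
  unfold RG RS at h
  simp [ct, co] at h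

/-- the only control symbol to the left is `c` -/
def CL (left : List (WW G)) (c : Ctr G) : Prop := ∀ c', ct G c' ∈ left ↔ c' = c

theorem cl_single (c : Ctr G) : CL G [ct G c] c := by
  intro c'
  simp [ct]

theorem cl_append {left : List (WW G)} {c : Ctr G} (h : CL G left c) (s : G.N ⊕ A) :
    CL G (left ++ [co G s]) c := by
  intro c'
  rw [List.mem_append, h c']
  simp [ct, co]

theorem ps_idle {u : List (G.N ⊕ A)} : ∀ {left v : List (WW G)}, CL G left none →
    PS (RG G) Sum.inl left (u.map (co G)) v → v = u.map (co G) := by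
  induction u with
  | nil => intro left v _ h; exact h
  | cons s u ih =>
    intro left v hc h
    obtain ⟨y, v', rfl, ⟨U, h1, h2⟩, h3⟩ := h
    rw [ih (cl_append G hc s) h3]
    rcases rg_co G h1 with ⟨rfl, rfl⟩ | ⟨h, z, hz, rfl, rfl⟩ | ⟨t, rfl, rfl, rfl⟩
    · rfl
    · have := (hc _).1 (h2 _ (Finset.mem_singleton_self _))
      simp at this
    · have := (hc _).1 (h2 _ (Finset.mem_singleton_self _))
      simp at this

theorem ps_tab {h : Fin G.n} {u : List (G.N ⊕ A)} : ∀ {left v : List (WW G)},
    CL G left (some (some h)) → PS (RG G) Sum.inl left (u.map (co G)) v →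
    ∃ ys : List (List (G.N ⊕ A)), List.Forall₂ (fun X y => y ∈ G.table h X) u ys ∧
      v = ys.flatten.map (co G) := by
  induction u with
  | nil => intro left v _ h; exact ⟨[], List.Forall₂.nil, h⟩
  | cons s u ih =>
    intro left v hc h
    obtain ⟨y, v', rfl, ⟨U, h1, h2⟩, h3⟩ := h
    obtain ⟨ys, g1, g2⟩ := ih (cl_append G hc s) h3
    rcases rg_co G h1 with ⟨rfl, rfl⟩ | ⟨h', z, hz, rfl, rfl⟩ | ⟨t, rfl, rfl, rfl⟩
    · have := (hc _).1 (h2 _ (Finset.mem_singleton_self _))
      simp at this
    · have := (hc _).1 (h2 _ (Finset.mem_singleton_self _))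
      simp only [Option.some.injEq] at this
      subst this
      exact ⟨z :: ys, List.Forall₂.cons hz g1, by rw [g2, List.flatten_cons, List.map_append]⟩
    · have := (hc _).1 (h2 _ (Finset.mem_singleton_self _))
      simp at this

theorem ps_fin {u : List (G.N ⊕ A)} : ∀ {left v : List (WW G)},
    CL G left (some none) → PS (RG G) Sum.inl left (u.map (co G)) v →
    ∃ x : List A, u = x.map Sum.inr ∧ v = x.map Sum.inr := by
  induction u with
  | nil => intro left v _ h; exact ⟨[], rfl, h⟩
  | cons s u ih =>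
    intro left v hc h
    obtain ⟨y, v', rfl, ⟨U, h1, h2⟩, h3⟩ := h
    obtain ⟨x, g1, g2⟩ := ih (cl_append G hc s) h3
    rcases rg_co G h1 with ⟨rfl, rfl⟩ | ⟨h', z, hz, rfl, rfl⟩ | ⟨t, rfl, rfl, rfl⟩
    · have := (hc _).1 (h2 _ (Finset.mem_singleton_self _))
      simp at this
    · have := (hc _).1 (h2 _ (Finset.mem_singleton_self _))
      simp at this
    · exact ⟨t :: x, by rw [g1]; rfl, by rw [g2]; rfl⟩

/-- invariant of the derivations of the simulating grammar -/
def InvI (w : List (WW G)) : Prop :=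
  (∃ c u, w = ct G c :: u.map (co G) ∧ Relation.ReflTransGen G.Step G.ax u) ∨
  (∃ x : List A, w = x.map Sum.inr ∧ x ∈ G.Lang)

theorem invI_step {w w' : List (WW G)} (hw : InvI G w) (h : (lpg G).Step w w') : InvI G w' := by
  rw [lstep_iff] at h
  rcases hw with ⟨c, u, rfl, hu⟩ | ⟨x, rfl, hx⟩
  · obtain ⟨y, v', rfl, ⟨U, h1, -⟩, h3⟩ := h
    have hc : CL G ([] ++ [ct G c]) c := cl_single G c
    rcases rg_ct G h1 with ⟨h4, c', rfl⟩ | ⟨rfl, rfl⟩
    · left
      rcases c with _ | _ | h'
      · rw [ps_idle G hc h3]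
        exact ⟨c', u, rfl, hu⟩
      · exact absurd rfl h4
      · obtain ⟨ys, g1, g2⟩ := ps_tab G hc h3
        refine ⟨c', ys.flatten, by rw [g2]; rfl, ?_⟩
        by_cases hune : u = []
        · subst hune
          cases g1
          exact hu
        · exact hu.tail ⟨hune, h', ys, g1, rfl⟩
    · right
      obtain ⟨x, g1, g2⟩ := ps_fin G hc h3
      subst g1 g2
      exact ⟨x, rfl, hu⟩
  · right
    cases x with
    | nil => exact ⟨[], h, hx⟩
    | cons t x =>
      obtain ⟨y, v', rfl, ⟨U, h1, -⟩, h3⟩ := h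
      exact (rg_t G h1).elim

theorem invI_reach {w : List (WW G)}
    (h : Relation.ReflTransGen (lpg G).Step (lpg G).ax w) : InvI G w := by
  induction h with
  | refl => exact Or.inl ⟨none, G.ax, rfl, Relation.ReflTransGen.refl⟩
  | tail _ h2 ih => exact invI_step G ih h2

theorem do_idle (u : List (G.N ⊕ A)) : ∀ (left : List (WW G)), ct G none ∈ left →
    PS (RG G) Sum.inl left (u.map (co G)) (u.map (co G)) := by
  induction u with
  | nil => intro left _; rfl
  | cons s u ih =>
    intro left hc
    exact ⟨[co G s], u.map (co G), rfl, ⟨_, rg_idle_mem G s, by simpa using hc⟩,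
      ih _ (List.mem_append_left _ hc)⟩

theorem do_tab {h : Fin G.n} {u : List (G.N ⊕ A)} {ys : List (List (G.N ⊕ A))}
    (hy : List.Forall₂ (fun X y => y ∈ G.table h X) u ys) : ∀ (left : List (WW G)),
    ct G (some (some h)) ∈ left →
    PS (RG G) Sum.inl left (u.map (co G)) (ys.flatten.map (co G)) := by
  induction hy with
  | nil => intro left _; rfl
  | @cons s z u ys hz _ ih =>
    intro left hc
    exact ⟨z.map (co G), ys.flatten.map (co G), by rw [List.flatten_cons, List.map_append],
      ⟨_, rg_tab_mem G h s z hz, by simpa using hc⟩, ih _ (List.mem_append_left _ hc)⟩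

theorem do_fin (x : List A) : ∀ (left : List (WW G)), ct G (some none) ∈ left →
    PS (RG G) Sum.inl left ((x.map Sum.inr).map (co G)) (x.map Sum.inr) := by
  induction x with
  | nil => intro left _; rfl
  | cons t x ih =>
    intro left hc
    exact ⟨[Sum.inr t], x.map Sum.inr, rfl, ⟨_, rg_t_mem G t, by simpa using hc⟩,
      ih _ (List.mem_append_left _ hc)⟩

theorem reach_idle {u : List (G.N ⊕ A)} (h : Relation.ReflTransGen G.Step G.ax u) :
    Relation.ReflTransGen (lpg G).Step (lpg G).ax (ct G none :: u.map (co G)) := by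
  induction h with
  | refl => exact Relation.ReflTransGen.refl
  | @tail u v _ h2 ih =>
    obtain ⟨-, h', ys, g1, rfl⟩ := h2
    refine (ih.tail (c := ct G (some (some h')) :: u.map (co G)) ?_).tail ?_
    · refine (lstep_iff G _ _).2 ?_
      exact ⟨[ct G (some (some h'))], _, rfl, ⟨∅, rg_ct_mem G (by simp), by simp⟩,
        do_idle G u _ (by simp)⟩
    · refine (lstep_iff G _ _).2 ?_
      exact ⟨[ct G none], _, rfl, ⟨∅, rg_ct_mem G (by simp), by simp⟩, do_tab G g1 _ (by simp)⟩

theorem lang_eq : (lpg G).Lang = G.Lang := by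
  ext x
  constructor
  · intro h
    rcases invI_reach G h with ⟨c, u, h1, -⟩ | ⟨x', h1, h2⟩
    · cases x with
      | nil => exact absurd h1 (by simp)
      | cons t x => exact absurd (List.cons.inj h1).1 (by simp [ct])
    · have : x = x' := List.map_injective_iff.2 Sum.inr_injective h1
      rw [this]; exact h2
  · intro h
    have h1 := reach_idle G h
    have h2 : (lpg G).Step (ct G none :: (x.map Sum.inr).map (co G))
        (ct G (some none) :: (x.map Sum.inr).map (co G)) := by
      refine (lstep_iff G _ _).2 ?_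
      exact ⟨[ct G (some none)], _, rfl, ⟨∅, rg_ct_mem G (by simp), by simp⟩,
        do_idle G _ _ (by simp)⟩
    have h3 : (lpg G).Step (ct G (some none) :: (x.map Sum.inr).map (co G)) (x.map Sum.inr) := by
      refine (lstep_iff G _ _).2 ?_
      exact ⟨[], _, rfl, ⟨∅, rg_fin_mem G, by simp⟩, do_fin G x _ (by simp)⟩
    exact (h1.tail h2).tail h3

end

end Q231.LP
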