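import Pool.Agent.Q231.LP.Gram

namespace Q231.LP

open List Q231.LS

open NP

theorem flat_rep2 (c : ℕ) : (replicate c [n' D, n' D]).flatten = replicate (2 * c) (n' D) := by
  induction c with
  | zero => rfl
  | succ c ih =>
    rw [List.replicate_succ, List.flatten_cons, ih, show 2 * (c + 1) = (2 * c + 1) + 1 from rfl,
      List.replicate_succ, List.replicate_succ]
    rfl

theorem stepQ (X : NP) (hX : X = A ∨ X = B) (j q : ℕ) :
    gramP.Step (n' A :: (replicate j (n' M) ++ (replicate (q + 1) (n' Y) ++ [n' Q])))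
      (n' X :: (replicate j (n' M) ++ ((n' Z :: replicate q (n' Y)) ++ [n' R]))) := by
  rw [step_iff]
  refine ⟨[n' X], _, rfl, ?_, ?_⟩
  · rcases hX with rfl | rfl
    · exact ⟨∅, by simp [RR, rulesP], by simp⟩
    · exact ⟨∅, by simp [RR, rulesP], by simp⟩
  · rw [ps_append]
    refine ⟨_, _, rfl, ?_, ?_⟩
    · have := ps_rep (R := RR) (inj := n') (s := n' M) (y := [n' M]) (U := {A})
        (by simp [RR, rulesP]) j ([] ++ [n' A]) (by simp)
      rwa [flat_rep] at this
    · rw [ps_append]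
      refine ⟨_, _, rfl, ?_, ?_⟩
      · rw [List.replicate_succ]
        refine ⟨[n' Z], _, rfl, ⟨{A}, by simp [RR, rulesP], by simp⟩, ?_⟩
        have := ps_rep (R := RR) (inj := n') (s := n' Y) (y := [n' Y]) (U := {A})
          (by simp [RR, rulesP]) q ([] ++ [n' A] ++ replicate j (n' M) ++ [n' Y]) (by simp)
        rwa [flat_rep] at this
      · exact ⟨[n' R], [], rfl, ⟨{A}, by simp [RR, rulesP], by simp⟩, rfl⟩

theorem stepR (X : NP) (hX : X = A ∨ X = B) (j c q : ℕ) :
    gramP.Step (n' A :: (replicate j (n' M) ++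
        ((replicate c (n' D) ++ (n' Z :: replicate (q + 1) (n' Y))) ++ [n' R])))
      (n' X :: (replicate j (n' M) ++
        ((replicate (2 * c + 2) (n' D) ++ (n' Z :: replicate q (n' Y))) ++ [n' R]))) := by
  rw [step_iff]
  refine ⟨[n' X], _, rfl, ?_, ?_⟩
  · rcases hX with rfl | rfl
    · exact ⟨∅, by simp [RR, rulesP], by simp⟩
    · exact ⟨∅, by simp [RR, rulesP], by simp⟩
  · rw [ps_append]
    refine ⟨_, _, rfl, ?_, ?_⟩
    · have := ps_rep (R := RR) (inj := n') (s := n' M) (y := [n' M]) (U := {A})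
        (by simp [RR, rulesP]) j ([] ++ [n' A]) (by simp)
      rwa [flat_rep] at this
    · rw [ps_append]
      refine ⟨_, _, rfl, ?_, ?_⟩
      · rw [ps_append]
        refine ⟨replicate (2 * c) (n' D), [n' D, n' D] ++ (n' Z :: replicate q (n' Y)), ?_, ?_, ?_⟩
        · rw [List.replicate_add, List.append_assoc]; rfl
        · have := ps_rep (R := RR) (inj := n') (s := n' D) (y := [n' D, n' D]) (U := {A})
            (by simp [RR, rulesP]) c ([] ++ [n' A] ++ replicate j (n' M)) (by simp)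
          rwa [flat_rep2] at this
        · refine ⟨[n' D, n' D], _, rfl, ⟨{A}, by simp [RR, rulesP], by simp⟩, ?_⟩
          rw [List.replicate_succ]
          refine ⟨[n' Z], _, rfl, ⟨{A}, by simp [RR, rulesP], by simp⟩, ?_⟩
          have := ps_rep (R := RR) (inj := n') (s := n' Y) (y := [n' Y]) (U := {A})
            (by simp [RR, rulesP]) q ([] ++ [n' A] ++ replicate j (n' M) ++ replicate c (n' D) ++
              [n' Z] ++ [n' Y]) (by simp)
          rwa [flat_rep] at this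
      · exact ⟨[n' R], [], rfl, ⟨{A, Z}, by simp [RR, rulesP], by simp⟩, rfl⟩

theorem stepB (X : NP) (hX : X = A ∨ X = F) (j c : ℕ) :
    gramP.Step (n' B :: (replicate j (n' M) ++ ((replicate c (n' D) ++ [n' Z]) ++ [n' R])))
      (n' X :: (replicate (j + 1) (n' M) ++ (replicate (c + 1) (n' Y) ++ [n' Q]))) := by
  rw [step_iff]
  refine ⟨[n' X, n' M], replicate j (n' M) ++ (replicate (c + 1) (n' Y) ++ [n' Q]), rfl, ?_, ?_⟩
  · rcases hX with rfl | rfl
    · exact ⟨∅, by simp [RR, rulesP], by simp⟩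
    · exact ⟨∅, by simp [RR, rulesP], by simp⟩
  · rw [ps_append]
    refine ⟨_, _, rfl, ?_, ?_⟩
    · have := ps_rep (R := RR) (inj := n') (s := n' M) (y := [n' M]) (U := {B})
        (by simp [RR, rulesP]) j ([] ++ [n' B]) (by simp)
      rwa [flat_rep] at this
    · rw [ps_append]
      refine ⟨_, _, rfl, ?_, ?_⟩
      · rw [ps_append]
        refine ⟨replicate c (n' Y), [n' Y], List.replicate_succ', ?_, ?_⟩
        · have := ps_rep (R := RR) (inj := n') (s := n' D) (y := [n' Y]) (U := {B})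
            (by simp [RR, rulesP]) c ([] ++ [n' B] ++ replicate j (n' M)) (by simp)
          rwa [flat_rep] at this
        · exact ⟨[n' Y], [], rfl, ⟨{B}, by simp [RR, rulesP], by simp⟩, rfl⟩
      · exact ⟨[n' Q], [], rfl, ⟨{B}, by simp [RR, rulesP], by simp⟩, rfl⟩

theorem stepF (j p : ℕ) :
    gramP.Step (n' F :: (replicate j (n' M) ++ (replicate p (n' Y) ++ [n' Q])))
      (Sum.inr AB.a :: (replicate j (Sum.inr AB.a) ++
        (replicate p (Sum.inr AB.b) ++ [Sum.inr AB.b]))) := by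
  rw [step_iff]
  refine ⟨[Sum.inr AB.a], _, rfl, ⟨∅, by simp [RR, rulesP], by simp⟩, ?_⟩
  rw [ps_append]
  refine ⟨_, _, rfl, ?_, ?_⟩
  · have := ps_rep (R := RR) (inj := n') (s := n' M) (y := [Sum.inr AB.a]) (U := {F})
      (by simp [RR, rulesP]) j ([] ++ [n' F]) (by simp)
    rwa [flat_rep] at this
  · rw [ps_append]
    refine ⟨_, _, rfl, ?_, ?_⟩
    · have := ps_rep (R := RR) (inj := n') (s := n' Y) (y := [Sum.inr AB.b]) (U := {F})
        (by simp [RR, rulesP]) p ([] ++ [n' F] ++ replicate j (n' M)) (by simp)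
      rwa [flat_rep] at this
    · exact ⟨[Sum.inr AB.b], [], rfl, ⟨{F}, by simp [RR, rulesP], by simp⟩, rfl⟩

theorem reach_R (j q : ℕ) : ∀ c : ℕ,
    Relation.ReflTransGen gramP.Step
      (n' A :: (replicate j (n' M) ++
        ((replicate c (n' D) ++ (n' Z :: replicate (q + 1) (n' Y))) ++ [n' R])))
      (n' B :: (replicate j (n' M) ++
        ((replicate (2 ^ (q + 1) * (c + 2) - 2) (n' D) ++ [n' Z]) ++ [n' R]))) := by
  induction q with
  | zero =>
    intro c
    have h := stepR B (Or.inr rfl) j c 0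
    rw [show 2 ^ (0 + 1) * (c + 2) - 2 = 2 * c + 2 by omega]
    exact Relation.ReflTransGen.single h
  | succ q ih =>
    intro c
    refine (Relation.ReflTransGen.single (stepR A (Or.inl rfl) j c (q + 1))).trans ?_
    have h := ih (2 * c + 2)
    rwa [show 2 ^ (q + 1) * (2 * c + 2 + 2) - 2 = 2 ^ (q + 1 + 1) * (c + 2) - 2 by
      congr 1; ring] at h

theorem reach_next (j p : ℕ) (hp : 1 ≤ p) (X : NP) (hX : X = A ∨ X = F) :
    Relation.ReflTransGen gramP.Step
      (n' A :: (replicate j (n' M) ++ (replicate p (n' Y) ++ [n' Q])))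
      (n' X :: (replicate (j + 1) (n' M) ++ (replicate (2 ^ p - 1) (n' Y) ++ [n' Q]))) := by
  obtain ⟨q, rfl⟩ : ∃ q, p = q + 1 := ⟨p - 1, by omega⟩
  cases q with
  | zero =>
    have h1 := stepQ B (Or.inr rfl) j 0
    have h2 := stepB X hX j 0
    exact (Relation.ReflTransGen.single h1).tail h2
  | succ q =>
    have h1 := stepQ A (Or.inl rfl) j (q + 1)
    have h2 := reach_R j q 0
    have h3 := stepB X hX j (2 ^ (q + 1) * (0 + 2) - 2)
    have e : 2 ^ (q + 1) * (0 + 2) - 2 + 1 = 2 ^ (q + 1 + 1) - 1 := by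
      have : 2 ≤ 2 ^ (q + 1) := by
        calc 2 = 2 ^ 1 := by norm_num
          _ ≤ 2 ^ (q + 1) := Nat.pow_le_pow_right (by norm_num) (by omega)
      have h2 : 2 ^ (q + 1 + 1) = 2 ^ (q + 1) * 2 := pow_succ _ _
      omega
    rw [e] at h3
    exact ((Relation.ReflTransGen.single h1).trans h2).tail h3

theorem reach_A (j : ℕ) : Relation.ReflTransGen gramP.Step gramP.ax
    (n' A :: (replicate j (n' M) ++ (replicate (T j) (n' Y) ++ [n' Q]))) := by
  induction j with
  | zero => exact Relation.ReflTransGen.refl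
  | succ j ih => exact ih.trans (reach_next j (T j) (T_pos j) A (Or.inl rfl))

theorem lang_mem (j : ℕ) :
    (AB.a :: (replicate (j + 1) AB.a ++ replicate (T (j + 1) + 1) AB.b)) ∈ gramP.Lang := by
  have h1 := (reach_A j).trans (reach_next j (T j) (T_pos j) F (Or.inr rfl))
  have h2 := h1.tail (stepF (j + 1) (2 ^ T j - 1))
  show Relation.ReflTransGen gramP.Step gramP.ax _
  have h3 : List.map (Sum.inr : AB → W)
      (AB.a :: (replicate (j + 1) AB.a ++ replicate (T (j + 1) + 1) AB.b)) =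
      (Sum.inr AB.a :: (replicate (j + 1) (Sum.inr AB.a) ++
        (replicate (2 ^ T j - 1) (Sum.inr AB.b) ++ [Sum.inr AB.b]))) := by
    simp [T, List.replicate_succ']
  rw [h3]
  exact h2

/-- the tower beats every bound of the pumping theorem -/
theorem T_beats (C r K : ℕ) : ∃ j, C * r ^ lab (K * (j + 3)) < T (j + 1) := by
  -- `lab n ≤ 2 ^ (3 * n)`
  have hlab : ∀ n, lab n ≤ 2 ^ (3 * n) := by
    intro n
    unfold lab
    have h1 : n ≤ 2 ^ n := Nat.lt_two_pow_self.le
    calc 2 ^ n * (2 ^ n * n) ≤ 2 ^ n * (2 ^ n * 2 ^ n) :=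
          Nat.mul_le_mul_left _ (Nat.mul_le_mul_left _ h1)
      _ = 2 ^ (3 * n) := by ring
  obtain ⟨j, hj⟩ : ∃ j, C + r + 3 * (K * (j + 1 + 3)) + 2 ≤ 2 ^ j := by
    set m := C + r + 6 * K + 20 with hm
    refine ⟨2 * m, ?_⟩
    have h1 : m + 1 ≤ 2 ^ m := Nat.lt_two_pow_self
    have h2 : (m + 1) * (m + 1) ≤ 2 ^ m * 2 ^ m := Nat.mul_le_mul h1 h1
    have h3 : 2 ^ (2 * m) = 2 ^ m * 2 ^ m := by rw [two_mul, pow_add]
    have h4 : m * m = C * m + r * m + 6 * (K * m) + 20 * m := by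
      conv_lhs => rw [hm]
      rw [← hm]; ring
    have h5 : C + r + 3 * (K * (2 * m + 1 + 3)) + 2 = C + r + 6 * (K * m) + 12 * K + 2 := by ring
    have h6 : (m + 1) * (m + 1) = m * m + 2 * m + 1 := by ring
    rw [h5]
    have h7 : 0 ≤ C * m := Nat.zero_le _
    have h8 : 0 ≤ r * m := Nat.zero_le _
    omega
  refine ⟨j + 1, ?_⟩
  set n := K * (j + 1 + 3) with hn
  have h1 := T_succ_add (j + 1)
  have h2 := T_succ_add j
  have h3 := T_ge j
  have h4 : 2 ^ (C + r + 3 * n + 3) ≤ 2 ^ T j := Nat.pow_le_pow_right (by norm_num) (by omega)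
  have h5 : C + r * 2 ^ (3 * n) + 2 ≤ T (j + 1) := by
    have e1 : 2 ^ (C + r + 3 * n + 3) = 8 * (2 ^ C * 2 ^ r * 2 ^ (3 * n)) := by
      rw [pow_add, pow_add, pow_add]; ring
    have a1 : C + 1 ≤ 2 ^ C := Nat.lt_two_pow_self
    have a2 : r + 1 ≤ 2 ^ r := Nat.lt_two_pow_self
    have a3 : 1 ≤ 2 ^ (3 * n) := Nat.one_le_two_pow
    have a4 : (C + 1) * (r + 1) * 2 ^ (3 * n) ≤ 2 ^ C * 2 ^ r * 2 ^ (3 * n) :=
      Nat.mul_le_mul_right _ (Nat.mul_le_mul a1 a2)
    have a5 : C + r * 2 ^ (3 * n) + 1 ≤ (C + 1) * (r + 1) * 2 ^ (3 * n) := by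
      nlinarith [Nat.zero_le (C * r * 2 ^ (3 * n)), Nat.zero_le (C * (2 ^ (3 * n) - 1)),
        Nat.mul_le_mul_left C a3]
    omega
  have h6 : 2 ^ (C + r * 2 ^ (3 * n) + 2) ≤ 2 ^ T (j + 1) := Nat.pow_le_pow_right (by norm_num) h5
  have h7 : C * r ^ lab n ≤ 2 ^ (C + r * 2 ^ (3 * n)) := by
    rw [pow_add 2 C, pow_mul 2 r]
    refine Nat.mul_le_mul Nat.lt_two_pow_self.le ?_
    calc r ^ lab n ≤ (2 ^ r) ^ lab n := Nat.pow_le_pow_left Nat.lt_two_pow_self.le _
      _ ≤ (2 ^ r) ^ (2 ^ (3 * n)) := Nat.pow_le_pow_right (by positivity) (hlab n)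
  have h8 : 2 ^ (C + r * 2 ^ (3 * n) + 2) = 4 * 2 ^ (C + r * 2 ^ (3 * n)) := by ring
  have h9 : 0 < 2 ^ (C + r * 2 ^ (3 * n)) := by positivity
  have h10 : T (j + 1 + 1) + 1 = 2 ^ T (j + 1) := h1
  omega

theorem main {A' : Type} [Finite A'] (f : AB → A') (hf : Function.Injective f) (H : ET0L A') :
    H.Lang ≠ (List.map f) '' gramP.Lang := by
  classical
  intro hL
  have hc : ∀ x : List AB, (x.map f).count (f AB.a) = x.count AB.a := fun x =>
    List.count_map_of_injective x f hf AB.a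
  have hcount : ∀ j p, (AB.a :: (replicate j AB.a ++ replicate p AB.b)).count AB.a = j + 1 :=
    fun j p => count_form j p
  refine not_et0l_upper H (f AB.a) ?_ ?_
  · intro m
    refine ⟨m + U (m - 1) + 1, ?_⟩
    intro x hx hm
    rw [hL] at hx
    obtain ⟨y, hy, rfl⟩ := hx
    obtain ⟨j, p, hp, rfl⟩ := lang_form hy
    rw [hc, hcount] at hm
    subst hm
    simp only [Nat.add_sub_cancel, List.length_map, List.length_cons, List.length_append,
      List.length_replicate]
    omega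
  · intro C r K
    obtain ⟨j, hj⟩ := T_beats C r K
    refine ⟨_, by rw [hL]; exact ⟨_, lang_mem j, rfl⟩, ?_, ?_⟩
    · rw [hc, hcount]; omega
    · rw [hc, hcount, show j + 1 + 1 + 1 = j + 3 from rfl]
      refine hj.trans_le ?_
      simp only [List.length_map, List.length_cons, List.length_append, List.length_replicate]
      omega

end Q231.LP
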