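import Pool.Agent.Q231.LS.Pump2

namespace Q231.LS

open List Classical

variable {V ι : Type} {tb : ι → V → Finset (List V)} {tm mk : V → Prop}

/-- the number of labels -/
def lab (K : ℕ) : ℕ := 2 ^ K * (2 ^ K * K)

/-- the pumping situation, explicit form -/
theorem exists_repeat' [Finite V] (r : ℕ) (hr : 2 ≤ r)
    (hlen : ∀ h X, ∀ y ∈ tb h X, y.length ≤ r) (τ : List ι) (c : V) (g : List V)
    (hd : Der tb τ [c] g) (ht : ∀ x ∈ g, tm x) (hJ : r ^ lab (Nat.card V) ≤ cnt mk g) :
    ∃ p q : List ι × V, R1 tb tm mk (τ, c) p ∧ R2 tb tm mk p q ∧ p.2 = q.2 ∧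
      Gd tb tm p.1 = Gd tb tm q.1 ∧ Al tb tm mk p.1 = Al tb tm mk q.1 := by
  haveI := Fintype.ofFinite V
  have hcard : Fintype.card (Set V × Set V × V) = lab (Nat.card V) := by
    simp [lab, Nat.card_eq_fintype_card]
  set J := Fintype.card (Set V × Set V × V) with hJdef
  rw [← hcard] at hJ
  obtain ⟨f, f1, f2⟩ := chain (tm := tm) r hr hlen τ c g J hd ht hJ
  have hreach : ∀ i ≤ J, R1 tb tm mk (τ, c) (f i) := by
    intro i
    induction i with
    | zero => intro _; exact f1
    | succ i ih => intro hi; exact (ih (by omega)).trans (f2 i (by omega)).toR1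
  have hR2 : ∀ i j, i < j → j ≤ J → R2 tb tm mk (f i) (f j) := by
    intro i j hij
    induction j with
    | zero => omega
    | succ j ih =>
      intro hj
      rcases Nat.lt_succ_iff_lt_or_eq.1 hij with h | h
      · exact (ih h (by omega)).trans_R1 (f2 j (by omega)).toR1
      · subst h; exact f2 i (by omega)
  obtain ⟨i, j, hne, heq⟩ := Fintype.exists_ne_map_eq_of_card_lt
    (fun i : Fin (J + 1) => (Gd tb tm (f i).1, Al tb tm mk (f i).1, (f i).2)) (by
      rw [Fintype.card_fin]; omega)
  simp only [Prod.mk.injEq] at heq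
  obtain ⟨e1, e2, e3⟩ := heq
  rcases lt_or_gt_of_ne hne with h | h
  · exact ⟨f i, f j, hreach _ (by omega), hR2 _ _ h (by omega), e3, e1, e2⟩
  · exact ⟨f j, f i, hreach _ (by omega), hR2 _ _ h (by omega), e3.symm, e1.symm, e2.symm⟩

/-- Pumping: if some terminal word with many marked letters is derivable from `w₀`, then there
are terminal words with arbitrarily many marked letters. -/
theorem pump_inf [Finite V] (r : ℕ) (hr : 2 ≤ r) (hlen : ∀ h X, ∀ y ∈ tb h X, y.length ≤ r)
    (w0 : List V) (τ : List ι) (x : List V) (hd : Der tb τ w0 x) (ht : ∀ s ∈ x, tm s)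
    (hc : w0.length * r ^ lab (Nat.card V) < cnt mk x) :
    ∀ k, ∃ τ x, Der tb τ w0 x ∧ (∀ s ∈ x, tm s) ∧ k < cnt mk x := by
  set J := lab (Nat.card V) with hJd
  have hBp : 0 < r ^ J := by positivity
  have hlt : w0.length * (r ^ J - 1) < cnt mk x := by
    have : w0.length * (r ^ J - 1) ≤ w0.length * r ^ J := Nat.mul_le_mul_left _ (by omega)
    omega
  obtain ⟨y1, c, y2, g1, g', g2, e1, e2, d1, d2, d3, d4⟩ := exists_part hBp hd hlt
  subst e2
  obtain ⟨p, q, hp, hpq, e3, e4, e5⟩ := exists_repeat' (tb := tb) (tm := tm) (mk := mk) r hr hlen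
    τ c g' d2 (fun x hx => ht x (by simp [hx])) d4
  obtain ⟨σ, z1, z2, h1, h2, h3, h4⟩ := hp
  obtain ⟨σ', u1, u2, k1, k2, k3, k4, k5⟩ := hpq
  simp only at h1 h2
  subst h1
  obtain ⟨a1, -⟩ := split_gd (mk := mk) d1 (fun x hx => ht x (by simp [hx]))
  obtain ⟨b1, -⟩ := split_gd (mk := mk) d3 (fun x hx => ht x (by simp [hx]))
  obtain ⟨v1, m1, m2, -⟩ := extend_word (mk := mk) a1
  obtain ⟨v2, n1, n2, -⟩ := extend_word (mk := mk) b1
  -- the word at time `s`
  set ws := v1 ++ ((z1 ++ p.2 :: z2) ++ v2) with hws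
  have hws1 : Der tb σ w0 ws := by
    rw [e1]
    exact der_append.2 ⟨_, _, rfl, m1, der_cons.2 ⟨_, _, rfl, h2, n1⟩⟩
  have hws2 : ∀ s ∈ ws, s ∈ Gd tb tm p.1 := by
    intro s hs
    simp only [hws, List.mem_append, List.mem_cons] at hs
    rcases hs with hs | (hs | hs | hs) | hs
    · exact m2 s hs
    · exact h3 s (by simp [hs])
    · rw [hs]; exact al_sub h4
    · exact h3 s (by simp [hs])
    · exact n2 s hs
  set G := Gd tb tm q.1 with hG
  set A := Al tb tm mk q.1 with hA
  -- the homomorphism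
  have hex : ∀ s : V, ∃ y : List V, s ∈ G → (Der tb σ' [s] y ∧ (∀ t ∈ y, t ∈ G) ∧
      (s ∈ A → ∃ t ∈ y, t ∈ A) ∧
      (s = p.2 → ∃ y1 y2, y = y1 ++ p.2 :: y2 ∧ (∀ t ∈ y1 ++ y2, t ∈ G) ∧ ∃ t ∈ y1 ++ y2, t ∈ A)) := by
    intro s
    by_cases hs : s = p.2
    · subst hs
      refine ⟨u1 ++ q.2 :: u2, fun _ => ⟨k2, ?_, ?_, ?_⟩⟩
      · intro t ht
        simp only [List.mem_append, List.mem_cons] at ht
        rcases ht with ht | ht | ht
        · exact k3 t (by simp [ht])
        · rw [ht]; exact al_sub k4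
        · exact k3 t (by simp [ht])
      · intro _
        exact ⟨q.2, by simp, k4⟩
      · intro _
        rw [← e3]
        exact ⟨u1, u2, rfl, k3, k5⟩
    · by_cases hsG : s ∈ G
      · have hsG' : s ∈ Gd tb tm (σ' ++ q.1) := by rw [← k1, e4]; exact hsG
        obtain ⟨y, f1, f2, f3⟩ := extend_symbol (mk := mk) hsG'
        refine ⟨y, fun _ => ⟨f1, f2, ?_, fun h => absurd h hs⟩⟩
        intro hsA
        apply f3
        rw [← k1, e5]
        exact hsA
      · exact ⟨[], fun h => absurd h hsG⟩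
  choose h hh using hex
  have hex2 : ∀ s : V, ∃ y : List V, s ∈ G → (Der tb q.1 [s] y ∧ (∀ t ∈ y, tm t) ∧
      (s ∈ A → ∃ t ∈ y, mk t)) := by
    intro s
    by_cases hsA : s ∈ A
    · obtain ⟨g, f1, f2, f3⟩ := hsA
      exact ⟨g, fun _ => ⟨f1, f2, fun _ => f3⟩⟩
    · by_cases hsG : s ∈ G
      · obtain ⟨g, f1, f2⟩ := hsG
        exact ⟨g, fun _ => ⟨f1, f2, fun h => absurd h hsA⟩⟩
      · exact ⟨[], fun h => absurd h hsG⟩
  choose g hg using hex2
  -- iteration
  let it : ℕ → List V → List V := fun k => (fun u => u.flatMap h)^[k]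
  have it_append : ∀ k u u', it k (u ++ u') = it k u ++ it k u' := by
    intro k
    induction k with
    | zero => intro u u'; rfl
    | succ k ih =>
      intro u u'
      simp only [it, Function.iterate_succ, Function.comp] at ih ⊢
      rw [List.flatMap_append, ih]
  have it_good : ∀ k u, (∀ s ∈ u, s ∈ G) → (∀ s ∈ it k u, s ∈ G) ∧
      Der tb (List.replicate k σ').flatten u (it k u) ∧
      ((∃ s ∈ u, s ∈ A) → ∃ s ∈ it k u, s ∈ A) := by
    intro k
    induction k with
    | zero => intro u hu; exact ⟨hu, rfl, fun h => h⟩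
    | succ k ih =>
      intro u hu
      have hu' : ∀ s ∈ u.flatMap h, s ∈ G := by
        intro s hs
        obtain ⟨t, ht, hst⟩ := List.mem_flatMap.1 hs
        exact (hh t (hu t ht)).2.1 s hst
      obtain ⟨i1, i2, i3⟩ := ih _ hu'
      refine ⟨i1, ?_, ?_⟩
      · rw [List.replicate_succ, List.flatten_cons]
        exact der_trans.2 ⟨_, der_flatMap fun s hs => (hh s (hu s hs)).1, i2⟩
      · rintro ⟨s, hs, hs'⟩
        apply i3
        obtain ⟨t, ht, ht'⟩ := (hh s (hu s hs)).2.2.1 hs'
        exact ⟨t, List.mem_flatMap.2 ⟨s, hs, ht⟩, ht'⟩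
  have hpG : p.2 ∈ G := by rw [e3]; exact al_sub k4
  have hpA : p.2 ∈ A := by rw [e3]; exact k4
  have it_cnt : ∀ k, k < (it k [p.2]).countP (fun s => decide (s ∈ A)) := by
    intro k
    induction k with
    | zero =>
      change 0 < [p.2].countP _
      rw [List.countP_pos_iff]
      exact ⟨p.2, by simp, by simpa using hpA⟩
    | succ k ih =>
      obtain ⟨x1, x2, f1, f2, f3⟩ := (hh p.2 hpG).2.2.2 rfl
      have e : it (k + 1) [p.2] = it k x1 ++ (it k [p.2] ++ it k x2) := by
        have : it (k + 1) [p.2] = it k ([p.2].flatMap h) := rfl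
        rw [this, List.flatMap_singleton, f1, show p.2 :: x2 = [p.2] ++ x2 from rfl, it_append,
          it_append]
      rw [e, List.countP_append, List.countP_append]
      have hpos : 0 < (it k x1).countP (fun s => decide (s ∈ A)) +
          (it k x2).countP (fun s => decide (s ∈ A)) := by
        obtain ⟨t, ht, htA⟩ := f3
        rcases List.mem_append.1 ht with ht | ht
        · have := (it_good k x1 fun s hs => f2 s (by simp [hs])).2.2 ⟨t, ht, htA⟩
          have h0 : 0 < (it k x1).countP (fun s => decide (s ∈ A)) := by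
            rw [List.countP_pos_iff]
            obtain ⟨s, hs, hs'⟩ := this
            exact ⟨s, hs, by simpa using hs'⟩
          omega
        · have := (it_good k x2 fun s hs => f2 s (by simp [hs])).2.2 ⟨t, ht, htA⟩
          have h0 : 0 < (it k x2).countP (fun s => decide (s ∈ A)) := by
            rw [List.countP_pos_iff]
            obtain ⟨s, hs, hs'⟩ := this
            exact ⟨s, hs, by simpa using hs'⟩
          omega
      omega
  intro k
  have hwsG : ∀ s ∈ ws, s ∈ G := by
    intro s hs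
    rw [← e4]
    exact hws2 s hs
  obtain ⟨i1, i2, -⟩ := it_good k ws hwsG
  refine ⟨σ ++ ((List.replicate k σ').flatten ++ q.1), (it k ws).flatMap g, ?_, ?_, ?_⟩
  · exact der_trans.2 ⟨ws, hws1, der_trans.2 ⟨_, i2, der_flatMap fun s hs => (hg s (i1 s hs)).1⟩⟩
  · intro s hs
    obtain ⟨t, ht, hst⟩ := List.mem_flatMap.1 hs
    exact (hg t (i1 t ht)).2.1 s hst
  · have hge : ∀ u : List V, (∀ s ∈ u, s ∈ G) →
        u.countP (fun s => decide (s ∈ A)) ≤ cnt mk (u.flatMap g) := by
      intro u
      induction u with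
      | nil => intro _; simp
      | cons c u ih =>
        intro hu
        rw [List.flatMap_cons, cnt_append, List.countP_cons]
        have i := ih fun s hs => hu s (by simp [hs])
        by_cases hcA : c ∈ A
        · have := cnt_pos.2 ((hg c (hu c (by simp))).2.2 hcA)
          simp only [hcA, decide_true, if_true]
          omega
        · simp only [hcA, decide_false]
          simp only [Bool.false_eq_true, if_false]
          omega
    refine lt_of_lt_of_le ?_ (hge _ i1)
    have e : it k ws = it k v1 ++ ((it k z1 ++ (it k [p.2] ++ it k z2)) ++ it k v2) := by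
      rw [hws, it_append, it_append, it_append, show p.2 :: z2 = [p.2] ++ z2 from rfl, it_append]
    rw [e]
    simp only [List.countP_append]
    have := it_cnt k
    omega

end Q231.LS
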