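import Pool.Agent.Q231.LP.Defs

namespace Q231.LP

open List Q231.LS

variable {V N : Type}

/-- recursive form of a left permitting step -/
def PS (R : V → List V → Finset N → Prop) (inj : N → V) : List V → List V → List V → Prop
  | _, [], v => v = []
  | left, X :: u, v => ∃ y v', v = y ++ v' ∧ (∃ U, R X y U ∧ ∀ Z ∈ U, inj Z ∈ left) ∧
      PS R inj (left ++ [X]) u v'

theorem ps_iff (R : V → List V → Finset N → Prop) (inj : N → V) (u : List V) :
    ∀ (left v : List V), PS R inj left u v ↔
    ∃ ys : List (List V), ys.length = u.length ∧ v = ys.flatten ∧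
    ∀ (i : ℕ) (hi : i < u.length) (hi' : i < ys.length),
      ∃ U : Finset N, R u[i] ys[i] U ∧ ∀ Z ∈ U, inj Z ∈ left ++ u.take i := by
  induction u with
  | nil =>
    intro left v
    constructor
    · intro h
      exact ⟨[], rfl, h, by intro i hi; simp at hi⟩
    · rintro ⟨ys, h1, h2, -⟩
      have : ys = [] := List.length_eq_zero_iff.1 h1
      subst this
      exact h2
  | cons X u ih =>
    intro left v
    constructor
    · rintro ⟨y, v', rfl, ⟨W, hW, hW'⟩, h⟩
      obtain ⟨ys, h1, h2, h3⟩ := (ih _ _).1 h
      refine ⟨y :: ys, by simp [h1], by simp [h2], ?_⟩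
      intro i hi hi'
      cases i with
      | zero =>
        refine ⟨W, hW, ?_⟩
        rw [List.take_zero, List.append_nil]
        exact hW'
      | succ i =>
        obtain ⟨W', g1, g2⟩ := h3 i (by simpa using hi) (by simpa using hi')
        refine ⟨W', g1, ?_⟩
        intro Z hZ
        have := g2 Z hZ
        simp only [List.take_succ_cons, List.append_assoc, List.singleton_append] at this ⊢
        exact this
    · rintro ⟨ys, h1, h2, h3⟩
      cases ys with
      | nil => simp at h1
      | cons y ys =>
        refine ⟨y, ys.flatten, by simp [h2], ?_, (ih _ _).2 ⟨ys, by simpa using h1, rfl, ?_⟩⟩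
        · obtain ⟨W, g1, g2⟩ := h3 0 (by simp) (by simp)
          refine ⟨W, g1, ?_⟩
          rw [List.take_zero, List.append_nil] at g2
          exact g2
        · intro i hi hi'
          obtain ⟨W, g1, g2⟩ := h3 (i + 1) (by simpa using hi) (by simpa using hi')
          refine ⟨W, g1, ?_⟩
          intro Z hZ
          have := g2 Z hZ
          simp only [List.take_succ_cons, List.append_assoc, List.singleton_append] at this ⊢
          exact this

theorem ps_append {R : V → List V → Finset N → Prop} {inj : N → V} {u u' : List V} :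
    ∀ {left v : List V}, PS R inj left (u ++ u') v ↔
    ∃ v1 v2, v = v1 ++ v2 ∧ PS R inj left u v1 ∧ PS R inj (left ++ u) u' v2 := by
  induction u with
  | nil =>
    intro left v
    simp [PS]
  | cons X u ih =>
    intro left v
    simp only [List.cons_append, PS]
    constructor
    · rintro ⟨y, v', rfl, hW, h⟩
      obtain ⟨v1, v2, rfl, h1, h2⟩ := ih.1 h
      exact ⟨y ++ v1, v2, by simp, ⟨y, v1, rfl, hW, h1⟩, by simpa using h2⟩
    · rintro ⟨v1, v2, rfl, ⟨y, v', rfl, hW, h1⟩, h2⟩
      exact ⟨y, v' ++ v2, by simp, hW, ih.2 ⟨v', v2, rfl, h1, by simpa using h2⟩⟩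

theorem ps_rep {R : V → List V → Finset N → Prop} {inj : N → V} {s : V} {y : List V}
    {U : Finset N} (hr : R s y U) (n : ℕ) : ∀ (left : List V), (∀ Z ∈ U, inj Z ∈ left) →
    PS R inj left (replicate n s) (replicate n y).flatten := by
  induction n with
  | zero => intro left _; rfl
  | succ n ih =>
    intro left hl
    rw [List.replicate_succ, List.replicate_succ, List.flatten_cons]
    exact ⟨y, _, rfl, ⟨U, hr, hl⟩, ih _ fun Z hZ => List.mem_append_left _ (hl Z hZ)⟩

theorem step_iff_ps {A : Type} (G : LPE0L A) (u v : List (G.N ⊕ A)) :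
    G.Step u v ↔ PS (fun X y U => (X, y, U) ∈ G.rules) Sum.inl [] u v := by
  rw [ps_iff]
  rfl

end Q231.LP
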